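import Pool.Agent.Lib.helper12.Grig

set_option autoImplicit false

namespace Pool.Agent.H.MP_759ce5_an

open Pool.Agent.Lib.helper12.Grig Gen

abbrev PL : Type := Equiv.Perm (List Bool)

lemma gen_mem (s : Gen) : gen s ∈ Grig := Subgroup.subset_closure ⟨s, rfl⟩

lemma wd_mem (u : List Gen) : wd u ∈ Grig := by
  induction u with
  | nil => exact Grig.one_mem
  | cons s u ih => rw [wd_cons]; exact Grig.mul_mem (gen_mem s) ih

lemma sect {g : PL} (hg : g ∈ Grig) (v : List Bool) :
    (g v).length = v.length ∧ ∃ k ∈ Grig, ∀ z, g (v ++ z) = g v ++ k z := by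
  induction v generalizing g with
  | nil =>
    obtain ⟨u, rfl⟩ := exists_wd hg
    exact ⟨by rw [wd_nil'], _, hg, fun z => by simp [wd_nil']⟩
  | cons x v ih =>
    obtain ⟨u, rfl⟩ := exists_wd hg
    obtain ⟨h1, k, hk, h2⟩ := ih (wd_mem (sec u x))
    exact ⟨by simp [wd_sec, h1], k, hk, fun z => by simp [wd_sec, h2]⟩

lemma len {g : PL} (hg : g ∈ Grig) (v : List Bool) : (g v).length = v.length := (sect hg v).1

lemma pref {g : PL} (hg : g ∈ Grig) {u v : List Bool} (h : u <+: v) : g u <+: g v := by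
  obtain ⟨z, rfl⟩ := h
  obtain ⟨-, k, -, h2⟩ := sect hg u
  exact ⟨_, (h2 z).symm⟩

lemma repl (x : Bool) {h : PL} (hh : h ∈ Grig) : ∃ g ∈ Grig, ∀ z, g (x :: z) = x :: h z := by
  have key : ∀ s : Gen, ∃ g ∈ Grig, ∀ z, g (x :: z) = x :: gen s z := by
    intro s
    cases x <;> cases s
    · exact ⟨_, wd_mem [b], fun z => rfl⟩
    · exact ⟨_, wd_mem [a, d, a], fun z => rfl⟩
    · exact ⟨_, wd_mem [a, b, a], fun z => rfl⟩
    · exact ⟨_, wd_mem [a, c, a], fun z => rfl⟩
    · exact ⟨_, wd_mem [a, b, a], fun z => rfl⟩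
    · exact ⟨_, wd_mem [d], fun z => rfl⟩
    · exact ⟨_, wd_mem [b], fun z => rfl⟩
    · exact ⟨_, wd_mem [c], fun z => rfl⟩
  obtain ⟨u, rfl⟩ := exists_wd hh
  induction u with
  | nil => exact ⟨1, Grig.one_mem, fun z => rfl⟩
  | cons s u ih =>
    obtain ⟨g, hg, h1⟩ := ih (wd_mem u)
    obtain ⟨g', hg', h2⟩ := key s
    exact ⟨g' * g, Grig.mul_mem hg' hg, fun z => by simp [wd_cons, h1, h2]⟩

lemma trans (u v : List Bool) (h : u.length = v.length) : ∃ g ∈ Grig, g u = v := by
  induction u generalizing v with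
  | nil => exact ⟨1, Grig.one_mem, (List.length_eq_zero_iff.1 h.symm).symm⟩
  | cons x u ih =>
    obtain _ | ⟨y, v⟩ := v
    · simp at h
    obtain ⟨k, hk, h1⟩ := ih v (by simpa using h)
    obtain ⟨g, hg, h2⟩ := repl x hk
    by_cases hxy : x = y
    · exact ⟨g, hg, by rw [h2, h1, hxy]⟩
    · refine ⟨gen a * g, Grig.mul_mem (gen_mem a) hg, ?_⟩
      rw [Equiv.Perm.mul_apply, h2, h1]
      cases x <;> cases y <;> first | rfl | exact absurd rfl hxy

def Rist (u : List Bool) : Subgroup PL where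
  carrier := {g | ∀ y, ¬ u <+: y → g y = y}
  one_mem' := fun _ _ => rfl
  mul_mem' := fun ha hb y hy => by rw [Equiv.Perm.mul_apply, hb y hy, ha y hy]
  inv_mem' := fun ha y hy => by rw [Equiv.Perm.inv_eq_iff_eq, ha y hy]

lemma rist_pref {u v : List Bool} {g : PL} (hg : g ∈ Rist u) (h : u <+: v) : u <+: g v := by
  by_contra h1
  have := g.injective (hg _ h1)
  exact h1 (this.symm ▸ h)

def KK : Subgroup PL := Subgroup.closure {x | ∃ h ∈ Grig, x = h * wd [a, b, a, b] * h⁻¹}

lemma KK_le : KK ≤ Grig := (Subgroup.closure_le _).2 (by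
  rintro _ ⟨h, hh, rfl⟩
  exact Grig.mul_mem (Grig.mul_mem hh (wd_mem _)) (Grig.inv_mem hh))

lemma KK_conj {h k : PL} (hh : h ∈ Grig) (hk : k ∈ KK) : h * k * h⁻¹ ∈ KK := by
  induction hk using Subgroup.closure_induction with
  | mem x hx =>
    obtain ⟨g, hg, rfl⟩ := hx
    exact Subgroup.subset_closure ⟨h * g, Grig.mul_mem hh hg, by group⟩
  | one => simp
  | mul x y _ _ hx hy =>
    have := KK.mul_mem hx hy
    rwa [show h * x * h⁻¹ * (h * y * h⁻¹) = h * (x * y) * h⁻¹ by group] at this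
  | inv x _ hx =>
    have := KK.inv_mem hx
    rwa [show (h * x * h⁻¹)⁻¹ = h * x⁻¹ * h⁻¹ by group] at this

lemma gen_sq (s : Gen) : gen s * gen s = 1 := Equiv.ext (act_act s)

lemma branch1 (x : Bool) {k : PL} (hk : k ∈ KK) :
    ∃ g ∈ KK, g ∈ Rist [x] ∧ ∀ z, g (x :: z) = x :: k z := by
  have t0 : wd [a, b, a, b] ∈ KK := Subgroup.subset_closure ⟨1, Grig.one_mem, by simp⟩
  have hv : wd [a, d, a, b, a, d, a, b] ∈ KK := by
    have h1 := KK_conj (wd_mem [a, d]) t0
    have h2 := KK_conj (wd_mem [a]) t0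
    have e : wd [a, d, a, b, a, d, a, b] = (wd [a, d] * wd [a, b, a, b] * (wd [a, d])⁻¹) *
        (wd [a] * wd [a, b, a, b] * (wd [a])⁻¹)⁻¹ := by
      have e1 : gen b * gen d = gen d * gen b := Equiv.ext fun w => by
        simp only [Equiv.Perm.mul_apply]
        exact ((klein w).2.2.2).trans (klein w).2.2.1.symm
      have i : ∀ s, (gen s)⁻¹ = gen s := fun s => inv_eq_of_mul_eq_one_right (gen_sq s)
      have q : ∀ s x, gen s * (gen s * x) = x := fun s x => by rw [← mul_assoc, gen_sq, one_mul]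
      have e2 : ∀ x, gen b * (gen d * x) = gen d * (gen b * x) := fun x => by
        rw [← mul_assoc, e1, mul_assoc]
      simp only [wd, List.map, List.prod_cons, List.prod_nil, mul_one, mul_inv_rev, i, mul_assoc,
        q, e2, gen_sq]
    rw [e]; exact KK.mul_mem h1 (KK.inv_mem h2)
  have base : ∃ g ∈ KK, g ∈ Rist [x] ∧ ∀ z, g (x :: z) = x :: wd [b, a, b, a] z := by
    have r0 : wd [a, d, a, b, a, d, a, b] ∈ Rist [false] := by
      rintro (_ | ⟨_ | _, y⟩) hy
      · rfl
      · simp at hy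
      · change true :: act c (act c y) = _
        rw [act_act]
    cases x
    · exact ⟨_, hv, r0, fun z => rfl⟩
    · refine ⟨_, KK_conj (gen_mem a) hv, ?_, fun z => rfl⟩
      rintro (_ | ⟨_ | _, y⟩) hy
      · rfl
      · change false :: act c (act c y) = _
        rw [act_act]
      · simp at hy
  induction hk using Subgroup.closure_induction with
  | mem y hy =>
    obtain ⟨h, hh, rfl⟩ := hy
    obtain ⟨g, hg, r, e⟩ := base
    obtain ⟨f, hf, e'⟩ := repl x (Grig.mul_mem hh (gen_mem a))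
    have e'' : ∀ z, f⁻¹ (x :: z) = x :: (h * gen a)⁻¹ z := fun z => by
      rw [Equiv.Perm.inv_eq_iff_eq, e']; simp
    refine ⟨_, KK_conj hf hg, fun y hy => ?_, fun z => ?_⟩
    · rw [Equiv.Perm.mul_apply, Equiv.Perm.mul_apply, r]
      · simp
      · intro h1
        have := pref hf h1
        rw [e'] at this
        simp only [Equiv.Perm.coe_inv, Equiv.apply_symm_apply] at this
        exact hy ((List.prefix_append [x] _).trans this)
    · rw [Equiv.Perm.mul_apply, Equiv.Perm.mul_apply, e'', e, e']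
      congr 1
      have : h * gen a * wd [b, a, b, a] * (h * gen a)⁻¹ = h * wd [a, b, a, b] * h⁻¹ := by
        simp only [wd, List.map, List.prod_cons, List.prod_nil, mul_one]; group
      rw [← this]; rfl
  | one => exact ⟨1, KK.one_mem, Subgroup.one_mem _, fun z => rfl⟩
  | mul y z _ _ hy hz =>
    obtain ⟨g, h1, h2, h3⟩ := hy
    obtain ⟨g', h4, h5, h6⟩ := hz
    exact ⟨g * g', KK.mul_mem h1 h4, Subgroup.mul_mem _ h2 h5, fun z => by simp [h3, h6]⟩
  | inv y _ hy =>
    obtain ⟨g, h1, h2, h3⟩ := hy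
    exact ⟨g⁻¹, KK.inv_mem h1, Subgroup.inv_mem _ h2, fun z => by
      rw [Equiv.Perm.inv_eq_iff_eq, h3]; simp⟩

lemma branch (v : List Bool) {k : PL} (hk : k ∈ KK) :
    ∃ g ∈ KK, g ∈ Rist v ∧ ∀ z, g (v ++ z) = v ++ k z := by
  induction v with
  | nil => exact ⟨k, hk, fun y hy => absurd List.nil_prefix hy, fun z => rfl⟩
  | cons x v ih =>
    obtain ⟨g, h1, h2, h3⟩ := ih
    obtain ⟨g', h4, h5, h6⟩ := branch1 x h1
    refine ⟨g', h4, fun y hy => ?_, fun z => by simp [h6, h3]⟩
    by_cases h : [x] <+: y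
    · obtain ⟨y, rfl⟩ := h
      rw [List.singleton_append, h6, h2 y (fun h => hy (by simpa using h))]
    · exact h5 y h

instance : (KK.subgroupOf Grig).Normal :=
  ⟨fun k hk h => KK_conj h.2 hk⟩

instance : Finite (Grig ⧸ KK.subgroupOf Grig) := by
  let q := QuotientGroup.mk' (KK.subgroupOf Grig)
  let G : Gen → Grig ⧸ KK.subgroupOf Grig := fun s => q ⟨gen s, gen_mem s⟩
  have sq : ∀ s, G s * G s = 1 := fun s => by
    simp only [G]; rw [← map_mul, ← map_one q]; congr 1; exact Subtype.ext (gen_sq s)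
  have i : ∀ s, (G s)⁻¹ = G s := fun s => inv_eq_of_mul_eq_one_right (sq s)
  have ab : Commute (G a) (G b) := by
    have : G a * G b * (G a * G b) = 1 := by
      simp only [G]; rw [← map_mul, ← map_mul]
      exact (QuotientGroup.eq_one_iff _).2 (Subgroup.subset_closure ⟨1, Grig.one_mem, by
        simp [wd, mul_assoc]⟩)
    rw [mul_eq_one_iff_eq_inv, mul_inv_rev, i, i] at this
    exact this
  have db : G d * G b = G c := by
    simp only [G]; rw [← map_mul]; congr 1; exact Subtype.ext (Equiv.ext fun w => (klein w).2.2.1)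
  have bd : G b * G d = G c := by
    simp only [G]; rw [← map_mul]; congr 1; exact Subtype.ext (Equiv.ext fun w => (klein w).2.2.2)
  have cb : Commute (G d) (G b) := db.trans bd.symm
  have key : ∀ u : List Gen, ∃ i j l : ℤ,
      q ⟨wd u, wd_mem u⟩ = G b ^ i * ((G a * G d) ^ j * G a ^ l) := by
    have ha : ∀ i j l : ℤ, G a * (G b ^ i * ((G a * G d) ^ j * G a ^ l)) =
        G b ^ i * ((G a * G d) ^ (-j) * G a ^ (l + 1)) := by
      intro i' j l
      have : G a * (G a * G d) ^ j * (G a)⁻¹ = (G a * G d) ^ (-j) := by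
        rw [← conj_zpow, zpow_neg, ← inv_zpow]
        congr 1
        rw [← mul_assoc, sq, one_mul, mul_inv_rev, i d]
      rw [← mul_assoc, (ab.zpow_right i').eq, ← this]; group
    have hd : ∀ i j l : ℤ, G d * (G b ^ i * ((G a * G d) ^ j * G a ^ l)) =
        G b ^ i * ((G a * G d) ^ (-(j + 1)) * G a ^ (l + 1)) := by
      intro i' j l
      rw [← ha]
      have : G d = G a * (G a * G d) := by rw [← mul_assoc, sq, one_mul]
      have hc := ((ab.mul_left cb).zpow_right i').eq
      generalize G a * G d = r at this hc ⊢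
      rw [this, mul_assoc, ← mul_assoc r, hc]
      group
    have hb : ∀ i j l : ℤ, G b * (G b ^ i * ((G a * G d) ^ j * G a ^ l)) =
        G b ^ (i + 1) * ((G a * G d) ^ j * G a ^ l) := by intros; group
    intro u
    induction u with
    | nil => exact ⟨0, 0, 0, by simp only [zpow_zero, mul_one]; exact map_one q⟩
    | cons s u ih =>
      obtain ⟨i, j, l, h⟩ := ih
      have : q ⟨wd (s :: u), wd_mem _⟩ = G s * q ⟨wd u, wd_mem u⟩ := by
        simp only [G]; rw [← map_mul]; congr 1
      rw [this, h]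
      cases s
      · exact ⟨_, _, _, ha _ _ _⟩
      · exact ⟨_, _, _, hb _ _ _⟩
      · rw [← bd, mul_assoc, hd, hb]; exact ⟨_, _, _, rfl⟩
      · exact ⟨_, _, _, hd _ _ _⟩
  have fo : ∀ x : Grig ⧸ KK.subgroupOf Grig, Finite (Subgroup.zpowers x) := fun x => by
    obtain ⟨g, rfl⟩ := QuotientGroup.mk'_surjective _ x
    exact (MonoidHom.isOfFinOrder _ (torsion g)).finite_zpowers
  refine Finite.of_surjective (fun p : Subgroup.zpowers (G b) × Subgroup.zpowers (G a * G d) ×
    Subgroup.zpowers (G a) => p.1.1 * (p.2.1.1 * p.2.2.1)) fun x => ?_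
  obtain ⟨⟨g, hg⟩, rfl⟩ := QuotientGroup.mk'_surjective _ x
  obtain ⟨u, rfl⟩ := exists_wd hg
  obtain ⟨i, j, l, h⟩ := key u
  exact ⟨(⟨_, i, rfl⟩, ⟨_, j, rfl⟩, ⟨_, l, rfl⟩), h.symm⟩

def lev (k : ℕ) : Finset (List Bool) := Finset.univ.image fun f : Fin k → Bool => List.ofFn f

lemma mem_lev {k : ℕ} {v : List Bool} : v ∈ lev k ↔ v.length = k := by
  simp only [lev, Finset.mem_image, Finset.mem_univ, true_and]
  constructor
  · rintro ⟨f, rfl⟩; simp
  · rintro rfl; exact ⟨v.get, List.ofFn_get v⟩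

lemma card_lev (k : ℕ) : (lev k).card = 2 ^ k := by
  rw [lev, Finset.card_image_of_injective _ List.ofFn_injective]; simp

theorem fin_index (N : Subgroup Grig) [N.Normal] (u : List Bool)
    (hN : ∀ g : Grig, g.1 ∈ Rist u → g ∈ N) : Finite (Grig ⧸ N) := by
  classical
  have h1 : ∀ v, v.length = u.length → ∀ g : Grig, g.1 ∈ Rist v → g ∈ N := by
    intro v hv g hg
    obtain ⟨h, hh, rfl⟩ := trans u v hv.symm
    refine (Subgroup.Normal.mem_comm_iff inferInstance (a := (⟨h, hh⟩ : Grig)⁻¹ * g)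
      (b := ⟨h, hh⟩)).1 (hN _ fun y hy => ?_) |> fun t => by simpa using t
    change h⁻¹ (g.1 (h y)) = y
    rw [hg _ fun h2 => hy (by simpa using pref (Grig.inv_mem hh) h2)]; simp
  have h2 : ∀ J : Finset (List Bool), J ⊆ lev u.length → ∀ g : Grig,
      (∀ v ∈ lev u.length, ∃ k ∈ KK, (∀ z, g.1 (v ++ z) = v ++ k z) ∧ (v ∉ J → k = 1)) → g ∈ N := by
    intro J
    induction J using Finset.induction_on with
    | empty =>
      intro _ g hg
      have : g = 1 := by
        ext1; ext1 y
        have key : ∀ y : List Bool, u.length ≤ y.length → g.1 y = y := fun y hy => by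
          obtain ⟨k, -, e, e'⟩ := hg (y.take u.length) (mem_lev.2 (by simp [hy]))
          have := e (y.drop u.length)
          rw [e' (by simp)] at this
          simpa using this
        have h3 := pref g.2 (List.prefix_append y u)
        rw [key (y ++ u) (by simp)] at h3
        exact (List.prefix_of_prefix_length_le h3 (List.prefix_append y u)
          (len g.2 y).le).eq_of_length (len g.2 y)
      rw [this]; exact N.one_mem
    | insert v J hv ih =>
      intro hJ g hg
      have hvl := hJ (Finset.mem_insert_self _ _)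
      obtain ⟨k, hk, e, -⟩ := hg v hvl
      obtain ⟨f, f1, f2, f3⟩ := branch v hk
      have := ih (fun x hx => hJ (Finset.mem_insert_of_mem hx)) ((⟨f, KK_le f1⟩ : Grig)⁻¹ * g)
        fun w hw => by
          by_cases hwv : w = v
          · subst hwv
            refine ⟨1, KK.one_mem, fun z => ?_, fun _ => rfl⟩
            change f⁻¹ (g.1 _) = _
            rw [e, ← f3]; simp
          · obtain ⟨k', hk', e1, e2⟩ := hg w hw
            refine ⟨k', hk', fun z => ?_, fun h => e2 (by simp [hwv, h])⟩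
            change f⁻¹ (g.1 _) = _
            rw [e1, (Rist v).inv_mem f2 _ fun h => hwv ?_]
            rw [mem_lev] at hw hvl
            exact (List.prefix_of_prefix_length_le (List.prefix_append w _) h
              (by omega)).eq_of_length (by omega)
      simpa using N.mul_mem (h1 v (mem_lev.1 hvl) ⟨f, KK_le f1⟩ f2) this
  choose sc hsc hsc' using fun (g : Grig) v => (sect g.2 v).2
  let Φ : Grig → (lev u.length → lev u.length × (Grig ⧸ KK.subgroupOf Grig)) := fun g v =>
    (⟨g.1 v, mem_lev.2 ((len g.2 _).trans (mem_lev.1 v.2))⟩, QuotientGroup.mk ⟨_, hsc g v⟩)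
  refine Finite.of_surjective (fun y => if h : ∃ g, Φ g = y then
    (QuotientGroup.mk h.choose : Grig ⧸ N) else 1) fun x => ?_
  obtain ⟨g, rfl⟩ := QuotientGroup.mk_surjective x
  have h : ∃ g', Φ g' = Φ g := ⟨g, rfl⟩
  refine ⟨Φ g, ?_⟩
  simp only [dif_pos h]
  have h3 := h.choose_spec
  generalize h.choose = g' at h3
  refine QuotientGroup.eq.2 (h2 _ subset_rfl _ fun v hv => ?_)
  have h4 := congrFun h3 ⟨v, hv⟩
  simp only [Φ, Prod.mk.injEq, Subtype.mk.injEq] at h4
  refine ⟨(sc g' v)⁻¹ * sc g v, (QuotientGroup.eq (s := KK.subgroupOf Grig)).1 h4.2, fun z => ?_,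
    fun h => absurd hv h⟩
  change g'.1⁻¹ (g.1 _) = _
  rw [Equiv.Perm.inv_eq_iff_eq, hsc', hsc', h4.1]
  simp

def bad (g : PL) (n : ℕ) : Set (List Bool) := {v | v.length = n ∧ ∃ z, g (v ++ z) ≠ g v ++ z}

lemma bad_fin (g : PL) (n : ℕ) : (bad g n).Finite :=
  (lev n).finite_toSet.subset fun _ h => mem_lev.2 h.1

lemma bad_gen (s : Gen) (v z : List Bool) (h : act s (v ++ z) ≠ act s v ++ z) :
    v = List.replicate v.length true ∨ v = List.replicate (v.length - 1) true ++ [false] := by
  induction v generalizing s with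
  | nil => simp
  | cons x v ih =>
    cases s <;> cases x <;> simp only [List.cons_append, act, ne_eq, List.cons.injEq, true_and,
      not_true_eq_false] at h
    all_goals first
      | (obtain _ | ⟨_ | _, v⟩ := v <;> simp_all [act]; done)
      | (rcases ih _ h with h1 | h1
         · left; rw [List.length_cons, List.replicate_succ, ← h1]
         · right
           obtain _ | ⟨y, v⟩ := v
           · simp at h1
           · rw [h1]; simp [List.replicate_succ])

lemma bad_card {g : PL} (hg : g ∈ Grig) : ∃ C : ℕ, ∀ n, (bad g n).ncard ≤ C := by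
  obtain ⟨u, rfl⟩ := exists_wd hg
  induction u with
  | nil => exact ⟨0, fun n => by simp [bad, wd]⟩
  | cons s u ih =>
    obtain ⟨C, hC⟩ := ih (wd_mem u)
    refine ⟨C + 2, fun n => ?_⟩
    have h1 : bad (wd (s :: u)) n ⊆ bad (wd u) n ∪ ((wd u)⁻¹ : PL) ''
        {List.replicate n true, List.replicate (n - 1) true ++ [false]} := by
      rintro v ⟨rfl, z, hz⟩
      by_cases h : wd u (v ++ z) = wd u v ++ z
      · rw [wd_cons, Equiv.Perm.mul_apply, Equiv.Perm.mul_apply, h] at hz
        have := bad_gen s _ z hz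
        rw [len (wd_mem u)] at this
        exact Or.inr ⟨wd u v, this, by simp⟩
      · exact Or.inl ⟨rfl, z, h⟩
    refine (Set.ncard_le_ncard h1 ((bad_fin _ _).union ((Set.toFinite _).image _))).trans
      ((Set.ncard_union_le _ _).trans (add_le_add (hC n) ?_))
    exact (Set.ncard_image_le (Set.toFinite _)).trans (Set.ncard_insert_le _ _ |>.trans (by simp))

end Pool.Agent.H.MP_759ce5_an
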