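import Pool.Agent.H.MP_759ce5_an.A

set_option autoImplicit false

namespace Pool.Agent.H.MP_759ce5_an

open Pool.Agent.Lib.helper12.Grig MeasureTheory

/-- The boundary of the binary tree. -/
abbrev X : Type := ℕ → Bool

/-- The uniform Bernoulli measure. -/
noncomputable def mu : Measure X :=
  Measure.infinitePi fun _ => (PMF.uniformOfFintype Bool).toMeasure

instance : IsProbabilityMeasure mu := by unfold mu; infer_instance

/-- The vertex formed by the first n letters. -/
def pre (x : X) (n : ℕ) : List Bool := List.ofFn fun i : Fin n => x i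

/-- The action on the boundary induced by a tree automorphism. -/
def bd (g : PL) (x : X) (n : ℕ) : Bool := (g (pre x (n + 1))).getD n false

@[simp] lemma pre_len (x : X) (n : ℕ) : (pre x n).length = n := by simp [pre]

lemma pre_pref (x : X) {m n : ℕ} (h : m ≤ n) : pre x m <+: pre x n := by
  rw [List.prefix_iff_eq_take]
  apply List.ext_getElem <;> simp [pre, h]

lemma pre_bd {g : PL} (hg : g ∈ Grig) (x : X) (n : ℕ) : pre (bd g x) n = g (pre x n) := by
  apply List.ext_getElem
  · simp [len hg]
  · intro i h1 h2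
    have h3 : i < (g (pre x (i + 1))).length := by simp [len hg]
    have := (pref hg (pre_pref x (show i + 1 ≤ n by simpa using h1))).getElem h3
    rw [← this, ← List.getD_eq_getElem _ false h3]
    simp only [pre, List.getElem_ofFn, bd]

def cyl (w : List Bool) : Set X := {x | pre x w.length = w}

lemma cyl_eq (w : List Bool) :
    cyl w = Set.pi (Finset.range w.length) fun i => {w.getD i false} := by
  ext x
  simp only [cyl, Set.mem_setOf_eq, Finset.coe_range, Set.mem_pi, Set.mem_Iio,
    Set.mem_singleton_iff]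
  constructor
  · intro h i hi
    rw [← h, List.getD_eq_getElem _ _ (by simpa using hi)]; simp [pre]
  · intro h
    apply List.ext_getElem (by simp)
    intro i h1 h2
    simp [pre, h i h2, h2]

lemma cyl_meas (w : List Bool) : MeasurableSet (cyl w) := by
  rw [cyl_eq]
  exact MeasurableSet.pi (Set.to_countable _) fun _ _ => MeasurableSet.singleton _

lemma mu_cyl (w : List Bool) : mu (cyl w) = 2⁻¹ ^ w.length := by
  rw [cyl_eq, mu, Measure.infinitePi_pi _ fun _ _ => MeasurableSet.singleton _]
  simp [PMF.toMeasure_apply_singleton]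

lemma meas_pre {m : MeasurableSpace X} (hm : ∀ w, MeasurableSet[m] (cyl w)) (n : ℕ)
    (f : List Bool → Bool) : Measurable[m] fun x => f (pre x n) := by
  letI : MeasurableSpace (List Bool) := ⊤
  refine (measurable_from_top (f := f)).comp (measurable_to_countable fun y => ?_)
  convert hm (pre y n) using 1
  ext x; simp [cyl]

lemma gen_cyl : (inferInstance : MeasurableSpace X) =
    MeasurableSpace.generateFrom (Set.range cyl) := by
  apply le_antisymm
  · refine iSup_le fun n => Measurable.comap_le ?_
    have := meas_pre (m := MeasurableSpace.generateFrom (Set.range cyl))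
      (fun w => MeasurableSpace.measurableSet_generateFrom ⟨w, rfl⟩) (n + 1) (·.getD n false)
    rwa [show (fun x => (pre x (n + 1)).getD n false) = fun x : X => x n from funext fun x => by
      rw [List.getD_eq_getElem _ _ (by simp)]; simp only [pre, List.getElem_ofFn]] at this
  · exact MeasurableSpace.generateFrom_le (by rintro _ ⟨w, rfl⟩; exact cyl_meas w)

lemma cyl_sub {u v : List Bool} {x : X} (hx : x ∈ cyl v) (h : u.length ≤ v.length) :
    x ∈ cyl u ↔ u <+: v := by
  have h1 := pre_pref x h
  rw [show pre x v.length = v from hx] at h1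
  exact ⟨fun h2 => (show pre x u.length = u from h2) ▸ h1, fun h2 =>
    (List.prefix_of_prefix_length_le h1 h2 (by simp)).eq_of_length (by simp)⟩

lemma pi_cyl : IsPiSystem (Set.range cyl) := by
  rintro _ ⟨u, rfl⟩ _ ⟨v, rfl⟩ ⟨x, h1, h2⟩
  rcases le_total u.length v.length with h | h
  · exact ⟨v, (Set.inter_eq_right.2 fun y hy => (cyl_sub hy h).2 ((cyl_sub h2 h).1 h1)).symm⟩
  · exact ⟨u, (Set.inter_eq_left.2 fun y hy => (cyl_sub hy h).2 ((cyl_sub h1 h).1 h2)).symm⟩

lemma bd_cyl {g : PL} (hg : g ∈ Grig) (w : List Bool) : bd g⁻¹ ⁻¹' cyl w = cyl (g w) := by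
  ext x
  simp [cyl, pre_bd (Grig.inv_mem hg), len hg, Equiv.symm_apply_eq]

lemma bd_mp (g : Grig) : MeasurePreserving (bd g⁻¹.1) mu mu := by
  have hm : Measurable (bd g⁻¹.1) :=
    measurable_pi_lambda _ fun n => meas_pre cyl_meas (n + 1) fun v => (g⁻¹.1 v).getD n false
  refine ⟨hm, ext_of_generate_finite _ gen_cyl pi_cyl ?_ (by rw [Measure.map_apply hm .univ]; rfl)⟩
  rintro _ ⟨w, rfl⟩
  rw [Measure.map_apply hm (cyl_meas w), InvMemClass.coe_inv, bd_cyl g.2, mu_cyl, mu_cyl, len g.2]

abbrev H : Type := Lp ℂ 2 mu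

/-- The Koopman representation: f is sent to the function x ↦ f (g⁻¹ x). -/
noncomputable def koop (g : Grig) : H →L[ℂ] H :=
  (Lp.compMeasurePreservingₗᵢ ℂ (bd g⁻¹.1) (bd_mp g)).toContinuousLinearMap

/-- T is the Koopman operator of g: it sends f to the function x ↦ f (g⁻¹ x). -/
def IsKoop (g : PL) (T : H →L[ℂ] H) : Prop := ∀ f : H, T f =ᵐ[mu] fun x => f (bd g⁻¹ x)

/-- The C*-algebra generated by the Koopman representation. -/
noncomputable def Alg : StarSubalgebra ℂ (H →L[ℂ] H) :=
  (StarAlgebra.adjoin ℂ {T | ∃ g ∈ Grig, IsKoop g T}).topologicalClosure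

lemma koop_is (g : Grig) : IsKoop g.1 (koop g) := fun f =>
  Lp.coeFn_compMeasurePreserving f (bd_mp g)

lemma Alg_eq : Alg = (StarAlgebra.adjoin ℂ (Set.range koop)).topologicalClosure := by
  rw [Alg]
  congr 2
  ext T
  constructor
  · rintro ⟨g, hg, h⟩
    exact ⟨⟨g, hg⟩, ContinuousLinearMap.ext fun f =>
      Lp.ext ((koop_is ⟨g, hg⟩ f).trans (h f).symm)⟩
  · rintro ⟨g, rfl⟩
    exact ⟨g.1, g.2, koop_is g⟩

noncomputable def e (w : List Bool) : H := indicatorConstLp 2 (cyl_meas w) (measure_ne_top _ _) 1

lemma koop_e (g : Grig) (w : List Bool) : koop g (e w) = e (g.1 w) := by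
  change Lp.compMeasurePreserving _ (bd_mp g) _ = _
  rw [e, Lp.indicatorConstLp_compMeasurePreserving]
  simp only [e, InvMemClass.coe_inv, bd_cyl g.2]

lemma inner_e {u v : List Bool} (h : u.length = v.length) :
    inner ℂ (e u) (e v) = if u = v then (2⁻¹ : ℂ) ^ v.length else 0 := by
  rw [e, e, L2.inner_indicatorConstLp_one_indicatorConstLp_one]
  split_ifs with h1
  · simp [h1, Measure.real, mu_cyl]
  · have : cyl u ∩ cyl v = ∅ := Set.eq_empty_of_forall_notMem fun x hx =>
      h1 (((cyl_sub hx.2 h.le).1 hx.1).eq_of_length h)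
    simp [this]

lemma e_split (w : List Bool) : e w = e (w ++ [false]) + e (w ++ [true]) := by
  have h1 : ∀ b x, x ∈ cyl (w ++ [b]) ↔ x ∈ cyl w ∧ x w.length = b := fun b x => by
    have : pre x (w.length + 1) = pre x w.length ++ [x w.length] := by
      simp only [pre]; rw [List.ofFn_succ_last]; simp
    simp only [cyl, Set.mem_setOf_eq, List.length_append, List.length_singleton, this]
    exact ⟨fun h => by simpa using List.append_inj h (by simp), fun h => by rw [h.1, h.2]⟩
  rw [e, e, e, ← indicatorConstLp_disjoint_union]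
  · congr 1
    ext x; simp only [Set.mem_union, h1]; cases x w.length <;> simp
  · exact Set.disjoint_left.2 fun x h2 h3 => by simp_all

lemma orth {f : H} (h : ∀ w, inner ℂ (e w) f = 0) : f = 0 := by
  have hi : Integrable f mu := (Lp.memLp f).integrable (by norm_num)
  have h1 : ∀ w, ∫ x in cyl w, f x ∂mu = 0 := fun w => by
    rw [← L2.inner_indicatorConstLp_one (cyl_meas w) (measure_ne_top _ _)]; exact h w
  have h2 : ∀ s, MeasurableSet s → ∫ x in s, f x ∂mu = 0 := by
    refine MeasurableSpace.induction_on_inter gen_cyl pi_cyl (by simp) ?_ ?_ ?_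
    · rintro _ ⟨w, rfl⟩; exact h1 w
    · intro t ht h3
      have := h1 []
      rw [show cyl [] = Set.univ by ext; simp [cyl, pre], Measure.restrict_univ] at this
      rw [setIntegral_compl ht hi, this, h3, sub_zero]
    · intro s h3 h4 h5
      rw [integral_iUnion h4 h3 hi.integrableOn]; simp [h5]
  exact Lp.eq_zero_iff_ae_eq_zero.2
    (hi.ae_eq_zero_of_forall_setIntegral_eq_zero fun s hs _ => h2 s hs)

lemma ext_e {S T : H →L[ℂ] H} (m : ℕ) (h : ∀ v, m ≤ v.length → S (e v) = T (e v)) : S = T := by
  have h1 : ∀ k v, m ≤ v.length + k → S (e v) = T (e v) := fun k => by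
    induction k with
    | zero => exact h
    | succ k ih =>
      intro v hv
      rw [e_split, map_add, map_add, ih, ih] <;> simp <;> omega
  refine star_injective (ContinuousLinearMap.ext fun f => sub_eq_zero.1 (orth fun w => ?_))
  rw [inner_sub_right, ContinuousLinearMap.star_eq_adjoint, ContinuousLinearMap.star_eq_adjoint,
    ContinuousLinearMap.adjoint_inner_right, ContinuousLinearMap.adjoint_inner_right,
    h1 m w (by omega), sub_self]

noncomputable def rho : Grig →* (H →L[ℂ] H) where
  toFun := koop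
  map_one' := ext_e 0 fun v _ => by simp [koop_e]
  map_mul' g h := ext_e 0 fun v _ => by simp [koop_e]

lemma rho_e (g : Grig) (w : List Bool) : rho g (e w) = e (g.1 w) := koop_e g w

lemma rho_star (g : Grig) : star (rho g) = rho g⁻¹ := by
  rw [ContinuousLinearMap.star_eq_adjoint, eq_comm, ContinuousLinearMap.eq_adjoint_iff]
  intro x y
  have := (Lp.compMeasurePreservingₗᵢ ℂ _ (bd_mp g)).inner_map_map (rho g⁻¹ x) y
  rw [← this]
  change inner ℂ ((rho g * rho g⁻¹) x) _ = _
  rw [← map_mul, mul_inv_cancel, map_one]; rfl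

lemma rho_norm (g : Grig) : ‖rho g‖ ≤ 1 := LinearIsometry.norm_toContinuousLinearMap_le _

end Pool.Agent.H.MP_759ce5_an
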