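import Pool.Agent.H.MP_759ce5_an.B

set_option autoImplicit false

namespace Pool.Agent.H.MP_759ce5_an

open Pool.Agent.Lib.helper12.Grig MeasureTheory

noncomputable def D : Submodule ℂ (H →L[ℂ] H) := Submodule.span ℂ (Set.range rho)

lemma rho_D (g : Grig) : rho g ∈ D := Submodule.subset_span ⟨g, rfl⟩

lemma approx {a : H →L[ℂ] H} (ha : a ∈ Alg) {ε : ℝ} (hε : 0 < ε) : ∃ b ∈ D, ‖a - b‖ < ε := by
  rw [Alg_eq] at ha
  obtain ⟨b, hb, h⟩ := Metric.mem_closure_iff.1 ha ε hε
  refine ⟨b, ?_, by rwa [← dist_eq_norm]⟩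
  clear h
  induction hb using StarAlgebra.adjoin_induction with
  | mem x hx => exact Submodule.subset_span hx
  | algebraMap r =>
    rw [Algebra.algebraMap_eq_smul_one, ← map_one rho]; exact D.smul_mem _ (rho_D 1)
  | add x y _ _ hx hy => exact D.add_mem hx hy
  | mul x y _ _ hx hy =>
    have := Submodule.mul_mem_mul hx hy
    rw [D, Submodule.span_mul_span] at this
    refine Submodule.span_mono ?_ this
    rintro _ ⟨_, ⟨g, rfl⟩, _, ⟨h, rfl⟩, rfl⟩
    exact ⟨g * h, map_mul _ _ _⟩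
  | star x hx' hx =>
    clear hx'
    induction hx using Submodule.span_induction with
    | mem x hx => obtain ⟨g, rfl⟩ := hx; rw [rho_star]; exact rho_D _
    | zero => simp
    | add x y _ _ hx hy => rw [star_add]; exact D.add_mem hx hy
    | smul r x _ hx => rw [star_smul]; exact D.smul_mem _ hx

lemma rho_Alg (g : Grig) : rho g ∈ Alg :=
  StarSubalgebra.le_topologicalClosure _ (StarAlgebra.subset_adjoin _ _ ⟨g.1, g.2, koop_is g⟩)

lemma D_le {b : H →L[ℂ] H} (hb : b ∈ D) : b ∈ Alg := by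
  induction hb using Submodule.span_induction with
  | mem x hx => obtain ⟨g, rfl⟩ := hx; exact rho_Alg g
  | zero => exact zero_mem _
  | add x y _ _ hx hy => exact add_mem hx hy
  | smul r x _ hx => exact Alg.smul_mem hx r

noncomputable def xi (w : List Bool) (M : ℕ) (z : List Bool) : H := ∑ y ∈ lev M, e (w ++ y ++ z)

lemma xi_zero (w : List Bool) : xi w 0 [] = e w := by simp [xi, lev]

open Classical in
lemma inner_xi {w z v : List Bool} {M : ℕ} (hv : v.length = w.length + M + z.length) :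
    inner ℂ (xi w M z) (e v) =
      if ∃ y ∈ lev M, w ++ y ++ z = v then (2⁻¹ : ℂ) ^ (w.length + M + z.length) else 0 := by
  rw [xi, sum_inner, Finset.sum_congr rfl fun y hy => inner_e (by simp [hv, mem_lev.1 hy, add_assoc]),
    hv]
  split_ifs with h
  · obtain ⟨y, hy, rfl⟩ := h
    rw [Finset.sum_eq_single_of_mem y hy fun y' _ h => if_neg (by simpa using h), if_pos rfl]
  · exact Finset.sum_eq_zero fun y hy => if_neg fun h' => h ⟨y, hy, h'⟩

lemma norm_xi (w z : List Bool) (M : ℕ) : 2 ^ (w.length + z.length) * ‖xi w M z‖ ^ 2 = 1 := by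
  have : inner ℂ (xi w M z) (xi w M z) = (2⁻¹ : ℂ) ^ (w.length + z.length) := by
    conv_lhs => enter [3]; rw [xi]
    rw [inner_sum, Finset.sum_congr rfl fun y hy => (inner_xi (by
      simp [mem_lev.1 hy, add_assoc])).trans (if_pos ⟨y, hy, rfl⟩), Finset.sum_const, card_lev]
    simp only [nsmul_eq_mul, pow_add, inv_pow]; push_cast; field_simp
  rw [inner_self_eq_norm_sq_to_K] at this
  apply Complex.ofReal_injective
  push_cast
  erw [this]
  rw [← mul_pow]; simp

noncomputable def Psi (w : List Bool) (M : ℕ) (z : List Bool) : (H →L[ℂ] H) →ₗ[ℂ] ℂ where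
  toFun T := 2 ^ (w.length + z.length) * inner ℂ (xi w M z) (T (xi w M z))
  map_add' S T := by simp [inner_add_right, mul_add]
  map_smul' r T := by simp [inner_smul_right, mul_left_comm]

lemma Psi_apply (w z : List Bool) (M : ℕ) (T : H →L[ℂ] H) :
    Psi w M z T = 2 ^ (w.length + z.length) * inner ℂ (xi w M z) (T (xi w M z)) := rfl

lemma Psi_norm (w z : List Bool) (M : ℕ) (T : H →L[ℂ] H) : ‖Psi w M z T‖ ≤ ‖T‖ := by
  rw [Psi_apply, norm_mul, norm_pow, Complex.norm_two]
  have h1 := norm_xi w z M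
  have h2 := (norm_inner_le_norm (𝕜 := ℂ) (xi w M z) (T (xi w M z))).trans
    (mul_le_mul_of_nonneg_left (T.le_opNorm _) (norm_nonneg _))
  calc _ ≤ _ := mul_le_mul_of_nonneg_left h2 (by positivity)
    _ = (2 ^ (w.length + z.length) * ‖xi w M z‖ ^ 2) * ‖T‖ := by ring
    _ = _ := by rw [h1, one_mul]

lemma Psi_sq (w z : List Bool) (M : ℕ) (T : H →L[ℂ] H) :
    ‖Psi w M z (star T * T)‖ = 2 ^ (w.length + z.length) * ‖T (xi w M z)‖ ^ 2 := by
  rw [Psi_apply, norm_mul, norm_pow, Complex.norm_two, ContinuousLinearMap.mul_apply,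
    ContinuousLinearMap.star_eq_adjoint, ContinuousLinearMap.adjoint_inner_right,
    inner_self_eq_norm_sq_to_K]
  simp

lemma Psi_rho (u : List Bool) (h : Grig) : Psi u 0 [] (rho h) = if h.1 u = u then 1 else 0 := by
  rw [Psi_apply, xi_zero, rho_e, inner_e (len h.2 u).symm, len h.2]
  simp only [eq_comm (a := u)]
  split_ifs
  · rw [List.length_nil, add_zero, ← mul_pow]; simp
  · simp

lemma propP {b : H →L[ℂ] H} (hb : b ∈ D) (w : List Bool) :
    ∃ C : ℝ, ∀ M z, ‖Psi w M z b - Psi w 0 [] b‖ ≤ C / 2 ^ M := by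
  classical
  induction hb using Submodule.span_induction with
  | zero => exact ⟨0, by simp⟩
  | add x y _ _ hx hy =>
    obtain ⟨C, hC⟩ := hx
    obtain ⟨C', hC'⟩ := hy
    refine ⟨C + C', fun M z => ?_⟩
    rw [map_add, map_add, add_sub_add_comm, add_div]
    exact norm_add_le_of_le (hC M z) (hC' M z)
  | smul r x _ hx =>
    obtain ⟨C, hC⟩ := hx
    refine ⟨‖r‖ * C, fun M z => ?_⟩
    rw [map_smul, map_smul, ← smul_sub, norm_smul, mul_div_assoc]
    exact mul_le_mul_of_nonneg_left (hC M z) (norm_nonneg _)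
  | mem x hx =>
    obtain ⟨h, rfl⟩ := hx
    obtain ⟨C, hC⟩ := bad_card h.2
    refine ⟨C, fun M z => ?_⟩
    have h1 : Psi w M z (rho h) - Psi w 0 [] (rho h) = (2 ^ M)⁻¹ * ∑ y ∈ lev M,
        ((if ∃ y' ∈ lev M, w ++ y' ++ z = h.1 (w ++ y ++ z) then (1 : ℂ) else 0) -
          if h.1 w = w then 1 else 0) := by
      rw [Psi_rho, Psi_apply]
      conv_lhs => enter [1, 2, 3]; rw [xi, map_sum]
      rw [inner_sum, Finset.sum_sub_distrib, Finset.sum_const, card_lev, mul_sub, Finset.mul_sum,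
        Finset.mul_sum]
      congr 1
      · refine Finset.sum_congr rfl fun y hy => ?_
        rw [rho_e, inner_xi (by simp [len h.2, mem_lev.1 hy, add_assoc])]
        split_ifs
        · simp only [pow_add, inv_pow]; field_simp
        · simp
      · simp only [nsmul_eq_mul]; push_cast; field_simp
    rw [h1, norm_mul, norm_inv, norm_pow, Complex.norm_two, div_eq_inv_mul]
    refine mul_le_mul_of_nonneg_left ((norm_sum_le _ _).trans ?_) (by positivity)
    have h2 : ((lev M).filter fun y => w ++ y ∈ bad h.1 (w.length + M)).card ≤ C := by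
      refine le_trans ?_ (hC (w.length + M))
      rw [← Set.ncard_coe_finset]
      exact Set.ncard_le_ncard_of_injOn (w ++ ·) (fun y hy => (Finset.mem_filter.1 hy).2)
        (fun _ _ _ _ h => List.append_cancel_left h) (bad_fin _ _)
    refine le_trans ?_ (Nat.cast_le.2 h2)
    rw [Finset.card_filter]
    push_cast
    refine Finset.sum_le_sum fun y hy => ?_
    by_cases h3 : w ++ y ∈ bad h.1 (w.length + M)
    · rw [if_pos h3]; split_ifs <;> simp
    · have h4 : h.1 (w ++ y ++ z) = h.1 (w ++ y) ++ z := by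
        by_contra h4
        exact h3 ⟨by simp [mem_lev.1 hy], z, h4⟩
      obtain ⟨y', h5⟩ := pref h.2 (List.prefix_append w y)
      have h6 : (∃ y' ∈ lev M, w ++ y' ++ z = h.1 (w ++ y ++ z)) ↔ h.1 w = w := by
        rw [h4, ← h5]
        constructor
        · rintro ⟨y'', -, h6⟩
          exact (List.append_inj (List.append_cancel_right h6) (len h.2 w).symm).1.symm
        · intro h6
          refine ⟨y', mem_lev.2 ?_, by rw [h6]⟩
          have := congrArg List.length h5
          simpa [len h.2, mem_lev.1 hy] using this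
      simp only [h6, sub_self, norm_zero, if_neg h3, le_refl]

lemma propQ {b : H →L[ℂ] H} (hb : b ∈ D) : ∃ C : ℕ, ∀ m, ∃ S : Finset (List Bool), S.card ≤ C ∧
    ∀ u, u.length = m → u ∉ S → ∀ g k : Grig, g.1 ∈ Rist u → k.1 ∈ Rist u →
      (1 - rho g) * b * (1 - rho k) = Psi u 0 [] b • ((1 - rho g) * (1 - rho k)) := by
  classical
  induction hb using Submodule.span_induction with
  | zero => exact ⟨0, fun m => ⟨∅, by simp⟩⟩
  | add x y _ _ hx hy =>
    obtain ⟨C, hC⟩ := hx
    obtain ⟨C', hC'⟩ := hy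
    refine ⟨C + C', fun m => ?_⟩
    obtain ⟨S, h1, h2⟩ := hC m
    obtain ⟨S', h3, h4⟩ := hC' m
    refine ⟨S ∪ S', (Finset.card_union_le _ _).trans (add_le_add h1 h3), fun u hu hS g k hg hk => ?_⟩
    rw [Finset.notMem_union] at hS
    rw [mul_add, add_mul, h2 u hu hS.1 g k hg hk, h4 u hu hS.2 g k hg hk, map_add, add_smul]
  | smul r x _ hx =>
    obtain ⟨C, hC⟩ := hx
    refine ⟨C, fun m => ?_⟩
    obtain ⟨S, h1, h2⟩ := hC m
    refine ⟨S, h1, fun u hu hS g k hg hk => ?_⟩
    rw [mul_smul_comm, smul_mul_assoc, h2 u hu hS g k hg hk, map_smul, smul_assoc]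
  | mem x hx =>
    obtain ⟨h, rfl⟩ := hx
    obtain ⟨C, hC⟩ := bad_card h.2
    refine ⟨C, fun m => ⟨(bad_fin h.1 m).toFinset, by
      rw [← Set.ncard_eq_toFinset_card _ (bad_fin _ _)]; exact hC m, fun u hu hS g k hg hk => ?_⟩⟩
    have h1 : ∀ z, h.1 (u ++ z) = h.1 u ++ z := fun z => by
      by_contra h4
      exact hS ((Set.Finite.mem_toFinset _).2 ⟨hu, z, h4⟩)
    refine ext_e 0 fun v _ => ?_
    rw [Psi_rho]
    simp only [ContinuousLinearMap.mul_apply, ContinuousLinearMap.smul_apply,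
      ContinuousLinearMap.sub_apply, ContinuousLinearMap.one_apply, map_sub, rho_e]
    by_cases hv : u <+: v
    · obtain ⟨z', h2⟩ := rist_pref hk hv
      obtain ⟨z, rfl⟩ := hv
      rw [← h2, h1, h1]
      split_ifs with h3
      · rw [h3, one_smul]
      · have : ∀ z, g.1 (h.1 u ++ z) = h.1 u ++ z := fun z => hg _ fun h4 => h3
          ((List.prefix_of_prefix_length_le (List.prefix_append _ z) h4
            (len h.2 u).le).eq_of_length (len h.2 u))
        simp [this]
    · simp [hk v hv]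

lemma big {d : H →L[ℂ] H} (hd : d ∈ Alg) (h0 : d ≠ 0) : ∃ δ : ℝ, 0 < δ ∧ ∃ (w : List Bool) (M : ℕ),
    ∀ z, ∃ y ∈ lev M, δ ≤ ‖Psi (w ++ y ++ z) 0 [] (star d * d)‖ := by
  obtain ⟨w, hw⟩ : ∃ w, d (e w) ≠ 0 := by
    by_contra! h
    exact h0 (ext_e 0 fun v _ => h v)
  have hκ : 0 < ‖Psi w 0 [] (star d * d)‖ := by rw [Psi_sq, xi_zero]; positivity
  obtain ⟨b, hb, h1⟩ := approx (mul_mem (star_mem hd) hd) (div_pos hκ (show 0 < 8 by norm_num))
  obtain ⟨C, hC⟩ := propP hb w
  obtain ⟨M, hM⟩ := pow_unbounded_of_one_lt (C / (‖Psi w 0 [] (star d * d)‖ / 4)) one_lt_two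
  refine ⟨‖Psi w 0 [] (star d * d)‖ / 2 / 2 ^ M, by positivity, w, M, fun z => ?_⟩
  have h2 : ‖Psi w 0 [] (star d * d)‖ / 2 ≤ ‖Psi w M z (star d * d)‖ := by
    have e1 := Psi_norm w z M (star d * d - b)
    have e2 := Psi_norm w [] 0 (star d * d - b)
    have e3 := hC M z
    have e4 : C / 2 ^ M ≤ ‖Psi w 0 [] (star d * d)‖ / 4 := by
      rw [div_lt_iff₀ (by positivity)] at hM
      rw [div_le_iff₀ (by positivity)]; linarith
    rw [map_sub] at e1 e2
    have e5 := norm_sub_norm_le (Psi w 0 [] (star d * d)) (Psi w 0 [] b)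
    have e6 := norm_sub_norm_le (Psi w 0 [] b) (Psi w M z b)
    have e7 := norm_sub_norm_le (Psi w M z b) (Psi w M z (star d * d))
    rw [norm_sub_rev] at e6 e7
    linarith
  obtain ⟨y, hy, h3⟩ := Finset.exists_le_of_sum_le (s := lev M) (Finset.card_pos.1 (by
      rw [card_lev]; positivity)) (f := fun _ => ‖d (xi w M z)‖ / 2 ^ M)
      (g := fun y => ‖d (e (w ++ y ++ z))‖) (by
    rw [Finset.sum_const, card_lev, nsmul_eq_mul]
    push_cast
    rw [mul_div_cancel₀ _ (by positivity), xi, map_sum]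
    exact norm_sum_le _ _)
  refine ⟨y, hy, (div_le_div_of_nonneg_right h2 (by positivity)).trans ?_⟩
  rw [Psi_sq, Psi_sq, xi_zero]
  refine le_trans (le_of_eq ?_) (mul_le_mul_of_nonneg_left
    (pow_le_pow_left₀ (by positivity) h3 2) (by positivity))
  simp only [List.length_append, mem_lev.1 hy, List.length_nil, pow_add]
  field_simp

noncomputable def rho' : Grig →* Alg := rho.codRestrict Alg rho_Alg

instance : CompleteSpace Alg := (StarSubalgebra.isClosed_topologicalClosure _).completeSpace_coe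

lemma rist_mem (I : Ideal Alg) [I.IsTwoSided] (hI : I ≠ ⊥) :
    ∃ u, ∀ g : Grig, g.1 ∈ Rist u → 1 - rho' g ∈ I := by
  classical
  obtain ⟨d, hd, h0⟩ := (Submodule.ne_bot_iff I).1 hI
  obtain ⟨δ, hδ, w, M, hw⟩ := big d.2 fun h => h0 (Subtype.ext h)
  obtain ⟨b, hb, h1⟩ := approx (star d * d).2 (show 0 < δ / 4 by positivity)
  obtain ⟨C, hC⟩ := propQ hb
  obtain ⟨S, h2, h3⟩ := hC (w.length + M + C)
  obtain ⟨z, hz, hz'⟩ := Finset.exists_mem_notMem_of_card_lt_card
    (s := S.image (List.drop (w.length + M))) (t := lev C)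
    (Finset.card_image_le.trans_lt (h2.trans_lt (by rw [card_lev]; exact Nat.lt_two_pow_self)))
  obtain ⟨y, hy, h4⟩ := hw z
  rw [mem_lev] at hy hz
  replace h3 := h3 (w ++ y ++ z) (by simp [hy, hz, add_assoc]) fun h => hz'
    (Finset.mem_image.2 ⟨_, h, List.drop_left' (by simp [hy])⟩)
  refine ⟨w ++ y ++ z, fun g hg => ?_⟩
  have h5 := Psi_norm (w ++ y ++ z) [] 0 (star d.1 * d.1 - b)
  rw [map_sub] at h5
  have h6 := norm_sub_norm_le (Psi (w ++ y ++ z) 0 [] (star d.1 * d.1)) (Psi (w ++ y ++ z) 0 [] b)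
  generalize Psi (w ++ y ++ z) 0 [] b = c at h3 h5 h6
  change ‖star d.1 * d.1 - b‖ < _ at h1
  have hc : 3 * δ / 4 < ‖c‖ := by linarith
  have hk : 0 < orderOf g := (torsion g).orderOf_pos
  have hck : c * orderOf g ≠ 0 := mul_ne_zero (norm_pos_iff.1 (by linarith)) (by
    exact_mod_cast hk.ne')
  let t' : Alg := ∑ i ∈ Finset.range (orderOf g), (1 - rho' (g ^ i))
  let b' : Alg := ⟨b, D_le hb⟩
  have e1 : (1 - rho' g) * t' = (orderOf g : ℂ) • (1 - rho' g) := by
    simp only [t', Finset.sum_sub_distrib, mul_sub, map_pow, mul_neg_geom_sum]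
    rw [← map_pow, pow_orderOf_eq_one, map_one, sub_self, sub_zero]
    simp [Nat.cast_smul_eq_nsmul, smul_sub, sub_mul, Nat.cast_comm]
  have e2 : (1 - rho' g) * b' * t' = c • ((1 - rho' g) * t') := by
    simp only [t', Finset.mul_sum, Finset.smul_sum]
    exact Finset.sum_congr rfl fun i _ => Subtype.ext (h3 g (g ^ i) hg (pow_mem hg i))
  have e3 : ‖t'‖ ≤ 2 * orderOf g := by
    refine (norm_sum_le_of_le _ (n := fun _ => 2) fun i _ => ?_).trans (by simp [mul_comm])
    refine (norm_sub_le _ _).trans ?_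
    have := rho_norm (g ^ i)
    have h7 : ‖(1 : H →L[ℂ] H)‖ ≤ 1 := ContinuousLinearMap.norm_id_le
    change ‖(1 : H →L[ℂ] H)‖ + ‖rho (g ^ i)‖ ≤ _
    linarith
  have e4 : ‖(c * orderOf g)⁻¹ • ((b' - star d * d) * t')‖ < 1 := by
    have h7 : ‖b' - star d * d‖ < δ / 4 := by rw [norm_sub_rev]; exact h1
    have h8 : (0 : ℝ) < orderOf g := by exact_mod_cast hk
    rw [norm_smul, norm_inv, inv_mul_lt_iff₀ (norm_pos_iff.2 hck), norm_mul c, Complex.norm_natCast]
    refine (norm_mul_le_of_le h7.le e3).trans_lt ?_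
    nlinarith
  have e5 : (1 - rho' g) * (Units.oneSub _ e4 : Algˣ) =
      (c * orderOf g)⁻¹ • ((1 - rho' g) * (star d * d) * t') := by
    rw [Units.val_oneSub, mul_sub, mul_smul_comm, ← mul_assoc, mul_sub _ b', sub_mul _ _ t', e2, e1,
      smul_smul, smul_sub, smul_smul, inv_mul_cancel₀ hck]
    simp
  rw [← Units.mul_inv_cancel_right (1 - rho' g) (Units.oneSub _ e4), e5, ← smul_mul_assoc,
    ← smul_mul_assoc]
  exact I.mul_mem_right _ (I.mul_mem_right _ (I.mul_mem_left _ (I.mul_mem_left _ hd)))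

theorem main (I : Ideal Alg) [I.IsTwoSided] (hc : IsClosed (I : Set Alg)) (hI : I ≠ ⊥) :
    FiniteDimensional ℂ (Alg ⧸ I) := by
  obtain ⟨u, hu⟩ := rist_mem I hI
  let π := Ideal.Quotient.mkₐ ℂ I
  let φ : Grig →* Alg ⧸ I := (π : Alg →* Alg ⧸ I).comp rho'
  have := fin_index φ.ker u fun g hg => (Ideal.Quotient.eq.2 (hu g hg)).symm
  let S := Submodule.span ℂ (Set.range fun q : Grig ⧸ φ.ker => rho' q.out)
  have : FiniteDimensional ℂ S := FiniteDimensional.span_of_finite ℂ (Set.finite_range _)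
  have h1 := Submodule.isClosed_sup_finiteDimensional (I.restrictScalars ℂ) S hc
  have h2 : ∀ b (hb : b ∈ D), (⟨b, D_le hb⟩ : Alg) ∈ I.restrictScalars ℂ ⊔ S := by
    intro b hb
    induction hb using Submodule.span_induction with
    | mem x hx =>
      obtain ⟨g, rfl⟩ := hx
      refine Submodule.mem_sup.2 ⟨rho' g - rho' (QuotientGroup.mk g : Grig ⧸ φ.ker).out,
        Ideal.Quotient.eq.1 ?_, _, Submodule.subset_span ⟨QuotientGroup.mk g, rfl⟩,
        sub_add_cancel _ _⟩
      obtain ⟨k, hk⟩ := QuotientGroup.mk_out_eq_mul φ.ker g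
      change φ g = φ _
      rw [hk, map_mul, k.2, mul_one]
    | zero => exact zero_mem _
    | add x y _ _ hx hy => exact add_mem hx hy
    | smul r x _ hx => exact Submodule.smul_mem _ r hx
  refine Module.Finite.of_surjective (π.toLinearMap ∘ₗ S.subtype) fun x => ?_
  obtain ⟨a, rfl⟩ := Ideal.Quotient.mk_surjective x
  have h3 : a ∈ I.restrictScalars ℂ ⊔ S := h1.closure_subset (Metric.mem_closure_iff.2 fun ε hε => by
    obtain ⟨b, hb, h⟩ := approx a.2 hε
    exact ⟨_, h2 b hb, by rw [dist_eq_norm]; exact h⟩)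
  obtain ⟨i, hi, s, hs, rfl⟩ := Submodule.mem_sup.1 h3
  exact ⟨⟨s, hs⟩, (Ideal.Quotient.eq.2 (by simpa using hi)).symm⟩

end Pool.Agent.H.MP_759ce5_an
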